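import Pool.Agent.H52.HD.Fin
import Pool.Graph.R_pool_sql_team_seeded_63374d34.Results.MP_0f6f3f_an.LocalRigidity

/-!
# Group von Neumann algebras of Kazhdan groups: the height dichotomy

Let `Γ` be an icc group with property (T), `Λ` any group and `θ : L(Γ) → L(Λ)` a trace preserving
`*`-isomorphism.  Write `θ(u_g) = ∑_h c_h(g) u_h`, so that `∑_h |c_h(g)|² = 1`, and let
`F(g) = ∑_h |c_h(g)|⁴`; note that `max_h |c_h(g)|⁴ ≤ F(g) ≤ max_h |c_h(g)|²`, so that `F(g)`
measures the height `max_h |c_h(g)|` of `θ(u_g)`.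

Let `μ` be a finitely supported probability measure on `Γ` and let `ρ < 1` be a spectral gap
constant of `μ`: the operator `π(μ)` has norm at most `ρ` for every unitary representation `π` of
`Γ` without nonzero invariant vectors.  (Such a `ρ` exists if the support of `μ` generates `Γ` and
contains `1`.)  Then there are exactly two possibilities.

* `θ` is of group type, `θ(u_g) = χ(g) w u_{φ(g)} w*` for an isomorphism of groups `φ : Γ → Λ`, a
  character `χ` and a unitary `w ∈ L(Λ)`; in this case `F` is bounded from below by a constant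
  `c > 0`.
* `F` decays exponentially along the random walk, uniformly in the starting point: the mean of
  `F(g s₁ ⋯ s_n)` for independent `μ`-distributed `s_i` is at most `ρ ^ n`, for all `g ∈ Γ` and `n`.
  The constant `ρ` depends only on `Γ` and `μ`, not on `Λ` or `θ`.

For a lattice `Γ` in a simple real Lie group `G₁` with trivial center and of real rank at least two
(it is icc and has property (T)) and a lattice `Λ` in such a group `G₂` which is not isomorphic to
`G₁` this says, by the strong rigidity theorem of Mostow and Margulis, that the second alternative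
holds for every isomorphism of `L(Γ)` onto `L(Λ)`.

As usual `ℓ²(G)` is a Hilbert space `H` with an orthonormal basis `(δ_g)` indexed by `G`, and
`L(G)` is the commutant of the right translations, i.e. the algebra of the bounded operators `T`
for which `⟨δ_{tg}, T δ_{sg}⟩ = ⟨δ_t, T δ_s⟩`.
-/

set_option autoImplicit false

namespace Pool.Agent.Results.MP_0f6f3f_an.HeightDichotomy

/-! ### Definitions -/

/-- all nontrivial conjugacy classes are infinite -/
def IsIcc (G : Type) [Group G] : Prop :=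
  ∀ g : G, g ≠ 1 → {x : G | ∃ k : G, k * g * k⁻¹ = x}.Infinite

/-- the bounded operators of a Hilbert space -/
abbrev Op (H : Type) [NormedAddCommGroup H] [InnerProductSpace ℂ H] : Type := H →L[ℂ] H

/-- `π` is a unitary representation of `G` on `H` -/
def IsURep {G H : Type} [Group G] [NormedAddCommGroup H] [InnerProductSpace ℂ H]
    (π : G → Op H) : Prop :=
  π 1 = 1 ∧ (∀ g h, π (g * h) = π g * π h) ∧ ∀ g v, ‖π g v‖ = ‖v‖

/-- Kazhdan's property (T): every unitary representation with almost invariant unit vectors has a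
nonzero invariant vector -/
def PropertyT (G : Type) [Group G] : Prop :=
  ∀ (H : Type) [NormedAddCommGroup H] [InnerProductSpace ℂ H] [CompleteSpace H]
    (π : G → Op H), IsURep π →
    (∀ (F : Finset G) (r : ℝ), 0 < r → ∃ v : H, ‖v‖ = 1 ∧ ∀ g ∈ F, ‖π g v - v‖ < r) →
    ∃ v : H, v ≠ 0 ∧ ∀ g, π g v = v

/-- `μ`, restricted to the finite set `S`, is a probability measure with support `S` -/
def IsProb {G : Type} (S : Finset G) (μ : G → ℝ) : Prop := (∀ s ∈ S, 0 < μ s) ∧ ∑ s ∈ S, μ s = 1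

/-- `ρ` is a spectral gap constant of `μ`: `‖π(μ)‖ ≤ ρ` for every unitary representation `π`
without nonzero invariant vectors -/
def IsGap {G : Type} [Group G] (S : Finset G) (μ : G → ℝ) (ρ : ℝ) : Prop :=
  ∀ (H : Type) [NormedAddCommGroup H] [InnerProductSpace ℂ H] [CompleteSpace H]
    (π : G → Op H), IsURep π → (∀ v : H, (∀ g, π g v = v) → v = 0) →
    ∀ v : H, ‖∑ s ∈ S, (μ s : ℂ) • π s v‖ ≤ ρ * ‖v‖

/-- one step of the random walk: `(walk S μ f)(g)` is the mean of `f(g s)` for a `μ`-distributed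
`s`; so `(walk S μ)^[n] f g` is the mean of `f(g s₁ ⋯ s_n)` -/
noncomputable def walk {G : Type} [Group G] (S : Finset G) (μ : G → ℝ) (f : G → ℝ) (g : G) : ℝ :=
  ∑ s ∈ S, μ s * f (g * s)

section
variable {G H : Type} [Group G] [NormedAddCommGroup H] [InnerProductSpace ℂ H]

/-- `T` belongs to the group von Neumann algebra `L(G)`: it commutes with the right
translations. -/
def InL (δ : HilbertBasis G ℂ H) (T : Op H) : Prop :=
  ∀ g s t : G, inner ℂ (δ (t * g)) (T (δ (s * g))) = inner ℂ (δ t) (T (δ s))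

/-- the Fourier coefficient of `T` at `g`; at `g = 1` this is the trace of `T ∈ L(G)` -/
noncomputable def coef (δ : HilbertBasis G ℂ H) (T : Op H) (g : G) : ℂ :=
  inner ℂ (δ g) (T (δ 1))

/-- `T` is the canonical unitary `u_g`, the left translation by `g` -/
def IsU (δ : HilbertBasis G ℂ H) (g : G) (T : Op H) : Prop := ∀ s, T (δ s) = δ (g * s)

/-- the sum of the fourth powers of the absolute values of the Fourier coefficients -/
noncomputable def four (δ : HilbertBasis G ℂ H) (T : Op H) : ℝ := ∑' g, ‖coef δ T g‖ ^ 4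

end

section
variable {G G' H K : Type} [Group G] [Group G'] [NormedAddCommGroup H] [InnerProductSpace ℂ H]
  [CompleteSpace H] [NormedAddCommGroup K] [InnerProductSpace ℂ K] [CompleteSpace K]
  (δ : HilbertBasis G ℂ H) (ε : HilbertBasis G' ℂ K) (θ : Op H → Op K)

/-- `θ` maps `L(G)` bijectively onto `L(G')` (values outside `L(G)` are irrelevant) -/
def Bij : Prop :=
  (∀ T, InL δ T → InL ε (θ T)) ∧ (∀ T, InL ε T → ∃ S, InL δ S ∧ θ S = T) ∧
    ∀ T S, InL δ T → InL δ S → θ T = θ S → T = S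

omit [Group G'] [CompleteSpace H] [CompleteSpace K] in
/-- `θ` is additive on `L(G)` -/
def Add : Prop := ∀ T S, InL δ T → InL δ S → θ (T + S) = θ T + θ S

omit [Group G'] [CompleteSpace H] [CompleteSpace K] in
/-- `θ` is homogeneous on `L(G)` -/
def Hom : Prop := ∀ (c : ℂ) (T : Op H), InL δ T → θ (c • T) = c • θ T

omit [Group G'] [CompleteSpace H] [CompleteSpace K] in
/-- `θ` is multiplicative on `L(G)` -/
def Mul : Prop := ∀ T S, InL δ T → InL δ S → θ (T * S) = θ T * θ S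

omit [Group G'] in
/-- `θ` preserves adjoints on `L(G)` -/
def Sta : Prop := ∀ T, InL δ T → θ (star T) = star (θ T)

/-- `θ` is a `*`-isomorphism of `L(G)` onto `L(G')` which preserves the trace -/
def IsTraceIso : Prop :=
  Bij δ ε θ ∧ Add δ θ ∧ Hom δ θ ∧ Mul δ θ ∧ Sta δ θ ∧
    ∀ T, InL δ T → coef ε (θ T) 1 = coef δ T 1

/-- `w` is a unitary of `L(G')` -/
def IsUnitary (w : Op K) : Prop := InL ε w ∧ star w * w = 1 ∧ w * star w = 1

/-- `θ(u_g) = χ(g) w u_{φ(g)} w*` for a group isomorphism `φ`, a character `χ` and a unitary `w`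
of `L(G')` -/
def IsOfGroupType : Prop :=
  ∃ (φ : G ≃* G') (χ : G →* ℂ) (w : Op K), (∀ g, ‖χ g‖ = 1) ∧ IsUnitary ε w ∧
    ∀ g T U, IsU δ g T → IsU ε (φ g) U → θ T = χ g • (w * U * star w)

end

/-! ### Proof -/

section
open Pool.Agent.H494R3.GT Pool.Agent.N557.QW
open Pool.Agent.Results.MP_0f6f3f_an.LocalRigidity (cj cj_star cf_cj inL_iff isU_iff)
open Pool.Agent.H52.HD (dichotomy total_of_dense of_intertwiner height_of_intertwiner GapP av_apply
  Mk_iter_ge)

/-- a map with the multiplicative properties of a unitary representation -/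
theorem urep_of {G H : Type} [Group G] [NormedAddCommGroup H] [InnerProductSpace ℂ H]
    [CompleteSpace H] (π : G →* unitary (H →L[ℂ] H)) :
    IsURep (fun g => ((π g : unitary (H →L[ℂ] H)) : H →L[ℂ] H)) := by
  refine ⟨?_, ?_, ?_⟩
  · show ((π 1 : unitary (H →L[ℂ] H)) : H →L[ℂ] H) = 1
    rw [map_one]; rfl
  · intro g k
    show ((π (g * k) : unitary (H →L[ℂ] H)) : H →L[ℂ] H) = _
    rw [map_mul]; rfl
  · intro g v
    exact Pool.Agent.N414.LR.Asm.norm_unit (π g) v

theorem hasT {G : Type} [Group G] (h : PropertyT G) : Pool.Agent.W661.RC.HasT G := by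
  intro H _ _ _ π hπ
  exact h H (fun g => ((π g : unitary (H →L[ℂ] H)) : H →L[ℂ] H)) (urep_of π) hπ

/-- a unitary representation in the sense of `IsURep` comes from a homomorphism into the unitary
group -/
theorem of_urep {G H : Type} [Group G] [NormedAddCommGroup H] [InnerProductSpace ℂ H]
    [CompleteSpace H] (π : G → Op H) (hπ : IsURep π) :
    ∃ σ : G →* unitary (H →L[ℂ] H), ∀ g, ((σ g : unitary (H →L[ℂ] H)) : H →L[ℂ] H) = π g := by
  obtain ⟨h1, hm, hn⟩ := hπ
  have hinv : ∀ g, π g * π g⁻¹ = 1 := fun g => by rw [← hm, mul_inv_cancel, h1]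
  have hinv' : ∀ g, π g⁻¹ * π g = 1 := fun g => by rw [← hm, inv_mul_cancel, h1]
  have hs : ∀ g, star (π g) * π g = 1 := by
    intro g
    exact (ContinuousLinearMap.norm_map_iff_adjoint_comp_self (π g)).1 (hn g)
  have hs2 : ∀ g, star (π g) = π g⁻¹ := by
    intro g
    calc star (π g) = star (π g) * (π g * π g⁻¹) := by rw [hinv, mul_one]
      _ = π g⁻¹ := by rw [← mul_assoc, hs, one_mul]
  refine ⟨{ toFun := fun g => ⟨π g, ?_⟩, map_one' := Subtype.ext h1,
            map_mul' := fun g k => Subtype.ext (hm g k) }, fun g => rfl⟩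
  rw [Unitary.mem_iff, hs2]
  exact ⟨hinv' g, hinv g⟩

theorem gap_of {G : Type} [Group G] (S : Finset G) (μ : G → ℝ) {ρ : ℝ} (h : IsGap S μ ρ) :
    GapP S μ ρ := by
  intro H _ _ _ π hπ ξ
  rw [av_apply]
  exact h H (fun g => ((π g : unitary (H →L[ℂ] H)) : H →L[ℂ] H)) (urep_of π) hπ ξ

theorem of_gap {G : Type} [Group G] (S : Finset G) (μ : G → ℝ) {ρ : ℝ} (h : GapP S μ ρ) :
    IsGap S μ ρ := by
  intro H _ _ _ π hπ hinv ξ
  obtain ⟨σ, hσ⟩ := of_urep π hπ
  have h1 := h H σ (fun ζ hζ => hinv ζ fun g => by rw [← hσ]; exact hζ g) ξ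
  rw [av_apply] at h1
  simp only [hσ] at h1
  exact h1

theorem four_cj {G H : Type} [Group G] [NormedAddCommGroup H] [InnerProductSpace ℂ H]
    [CompleteSpace H] (δ : HilbertBasis G ℂ H) (T : H →L[ℂ] H) :
    Pool.Agent.H52.HD.four (cj δ T) = four δ T := by
  rw [Pool.Agent.H52.HD.four, four]
  refine tsum_congr fun g => ?_
  rw [cf_cj]
  rfl

variable {Γ Λ H K : Type} [Group Γ] [Group Λ] [NormedAddCommGroup H]
      [InnerProductSpace ℂ H] [CompleteSpace H] [NormedAddCommGroup K] [InnerProductSpace ℂ K]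
      [CompleteSpace K]

/-- the unitaries `θ(u_g)` -/
theorem exists_v (δ : HilbertBasis Γ ℂ H) (ε : HilbertBasis Λ ℂ K) (U : Γ → Op H)
    (θ : Op H → Op K) (hU : ∀ g, IsU δ g (U g)) (hiso : IsTraceIso δ ε θ) :
    ∃ v : Γ →* unitary (Pool.Agent.N414.LR.Op Λ),
      (∀ g, (v g : Pool.Agent.N414.LR.Op Λ) = cj ε (θ (U g))) ∧
      (∀ g, (v g : Pool.Agent.N414.LR.Op Λ) ∈ LG Λ) ∧
      (∀ g, g ≠ 1 → cf (v g : Pool.Agent.N414.LR.Op Λ) 1 = 0) ∧
      (Submodule.span ℂ
        (Set.range fun g => (v g : Pool.Agent.N414.LR.Op Λ) (dl 1))).topologicalClosure = ⊤ := by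
  obtain ⟨⟨hmaps, honto, hinj⟩, hadd, hhom, hmul, hsta, htr⟩ := hiso
  have hin : ∀ x : (LG Γ).toStarSubalgebra, InL δ ((cj δ).symm x) := fun x => by
    refine (inL_iff δ _).2 ?_
    rw [StarAlgEquiv.apply_symm_apply]; exact x.2
  let f : (LG Γ).toStarSubalgebra → (LG Λ).toStarSubalgebra := fun x =>
    ⟨cj ε (θ ((cj δ).symm x)), (inL_iff ε _).1 (hmaps _ (hin x))⟩
  have hbij : Function.Bijective f := by
    constructor
    · intro x y hxy
      have h1 := congrArg Subtype.val hxy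
      have h2 := hinj _ _ (hin x) (hin y) ((cj ε).injective h1)
      exact Subtype.ext ((cj δ).symm.injective h2)
    · intro y
      obtain ⟨T, hT, hTy⟩ := honto ((cj ε).symm y)
        ((inL_iff ε _).2 (by rw [StarAlgEquiv.apply_symm_apply]; exact y.2))
      refine ⟨⟨cj δ T, (inL_iff δ T).1 hT⟩, Subtype.ext ?_⟩
      change cj ε (θ ((cj δ).symm (cj δ T))) = y
      rw [StarAlgEquiv.symm_apply_apply, hTy, StarAlgEquiv.apply_symm_apply]
  let e : (LG Γ).toStarSubalgebra ≃⋆ₐ[ℂ] (LG Λ).toStarSubalgebra :=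
    { Equiv.ofBijective f hbij with
      map_mul' := fun x y => Subtype.ext (by
        change cj ε (θ ((cj δ).symm ((x : Pool.Agent.N414.LR.Op Γ) * y))) = _
        rw [map_mul, hmul _ _ (hin x) (hin y), map_mul]; rfl)
      map_add' := fun x y => Subtype.ext (by
        change cj ε (θ ((cj δ).symm ((x : Pool.Agent.N414.LR.Op Γ) + y))) = _
        rw [map_add, hadd _ _ (hin x) (hin y), map_add]; rfl)
      map_smul' := fun c x => Subtype.ext (by
        change cj ε (θ ((cj δ).symm (c • (x : Pool.Agent.N414.LR.Op Γ)))) = _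
        rw [map_smul, hhom c _ (hin x), map_smul]; rfl)
      map_star' := fun x => Subtype.ext (by
        change cj ε (θ ((cj δ).symm (star (x : Pool.Agent.N414.LR.Op Γ)))) = _
        rw [map_star, hsta _ (hin x), cj_star]; rfl) }
  have he : ∀ x, (e x : L2 Λ →L[ℂ] L2 Λ) = cj ε (θ ((cj δ).symm x)) := fun _ => rfl
  obtain ⟨v, h1, h2, h3, h4⟩ := Pool.Agent.N414.LR.END.t_den Γ Λ e (fun x => by
      rw [he, cf_cj]
      have h5 := htr _ (hin x)
      have h6 : coef δ ((cj δ).symm x) 1 = cf (x : Pool.Agent.N414.LR.Op Γ) 1 := by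
        have := cf_cj δ ((cj δ).symm (x : Pool.Agent.N414.LR.Op Γ)) 1
        rw [StarAlgEquiv.apply_symm_apply] at this
        exact this.symm
      exact h5.trans h6)
  refine ⟨v, fun g => ?_, h2, h3, h4⟩
  rw [h1, he]
  congr 2
  have h7 : U g = (cj δ).symm (lam g) := by
    rw [← (isU_iff δ g (U g)).1 (hU g), StarAlgEquiv.symm_apply_apply]
  exact h7.symm

omit [CompleteSpace H] in
/-- group type isomorphisms have heights bounded from below -/
theorem lower_of_groupType (δ : HilbertBasis Γ ℂ H) (ε : HilbertBasis Λ ℂ K) (U : Γ → Op H)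
    (θ : Op H → Op K) (hU : ∀ g, IsU δ g (U g)) (v : Γ →* unitary (Pool.Agent.N414.LR.Op Λ))
    (hvθ : ∀ g, (v g : Pool.Agent.N414.LR.Op Λ) = cj ε (θ (U g)))
    (hv : ∀ g, (v g : Pool.Agent.N414.LR.Op Λ) ∈ LG Λ) (h : IsOfGroupType δ ε θ) :
    ∃ c : ℝ, 0 < c ∧ ∀ g, c ≤ four ε (θ (U g)) := by
  obtain ⟨φ, χ, w, hχ, ⟨hw, hw1, hw2⟩, hg⟩ := h
  have hwL : cj ε w ∈ LG Λ := (inL_iff ε w).1 hw
  have hw1' : star (cj ε w) * cj ε w = 1 := by
    rw [← cj_star, ← map_mul, hw1, map_one]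
  have hw2' : cj ε w * star (cj ε w) = 1 := by
    rw [← cj_star, ← map_mul, hw2, map_one]
  have hwn : ‖(cj ε w) (dl 1)‖ = 1 := by
    have hu : cj ε w ∈ unitary (Pool.Agent.N414.LR.Op Λ) := Unitary.mem_iff.2 ⟨hw1', hw2'⟩
    rw [ContinuousLinearMap.norm_map_of_mem_unitary hu, Pool.Agent.N414.LR.SQ.norm_dl]
  obtain ⟨c, hc, hcv⟩ := height_of_intertwiner v hv (fun g => φ g) (fun g => χ g)
    ((cj ε w) (dl 1)) hwn hχ (fun g => by
      rw [hvθ, hg g (U g) ((cj ε).symm (lam (φ g))) (hU g)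
        ((isU_iff ε _ _).2 (by rw [StarAlgEquiv.apply_symm_apply])), map_smul, map_mul, map_mul,
        cj_star, StarAlgEquiv.apply_symm_apply]
      have h1 : (χ g • (cj ε w * lam (φ g) * star (cj ε w))) (cj ε w (dl 1)) =
          χ g • (cj ε w (lam (φ g) ((star (cj ε w) * cj ε w) (dl 1)))) := rfl
      rw [h1, hw1']
      congr 1
      show cj ε w (lam (φ g) (dl 1)) = rgt (φ g) (cj ε w (dl 1))
      have h2 := congrArg (fun z : L2 Λ →L[ℂ] L2 Λ => z (dl 1)) (mem_LG.1 hwL (φ g))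
      simp only [mul_ap] at h2
      rw [h2, rgt_dl, lam_dl, one_mul, mul_one])
  refine ⟨c, hc, fun g => ?_⟩
  rw [← four_cj, ← hvθ]
  exact hcv g

/-- **The dichotomy.** -/
theorem main (hicc : IsIcc Γ) (S : Finset Γ) (μ : Γ → ℝ) (hμ : IsProb S μ)
    {ρ : ℝ} (hρ0 : 0 ≤ ρ) (hρ1 : ρ < 1) (hgap : IsGap S μ ρ) (δ : HilbertBasis Γ ℂ H)
    (ε : HilbertBasis Λ ℂ K) (U : Γ → Op H) (θ : Op H → Op K) (hU : ∀ g, IsU δ g (U g))
    (hθ : IsTraceIso δ ε θ) :
    (IsOfGroupType δ ε θ ∧ ∃ c : ℝ, 0 < c ∧ ∀ g, c ≤ four ε (θ (U g))) ∨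
      (¬ IsOfGroupType δ ε θ ∧
        ∀ (n : ℕ) (g : Γ), (walk S μ)^[n] (fun x => four ε (θ (U x))) g ≤ ρ ^ n) := by
  obtain ⟨v, hvθ, hv, hv1, hvd⟩ := exists_v δ ε U θ hU hθ
  have hF : (fun x => four ε (θ (U x))) = fun x => Pool.Agent.H52.HD.four
      (v x : Pool.Agent.N414.LR.Op Λ) := by
    funext x
    rw [hvθ, four_cj]
  rcases dichotomy S μ hμ.1 hμ.2 hρ0 hρ1 (gap_of S μ hgap) hicc v hv hv1 (total_of_dense v hvd) with
    ⟨⟨c, hc, hcv⟩, f, χ, ζ, hζ, hvz⟩ | hdec
  · left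
    refine ⟨?_, c, hc, fun g => ?_⟩
    · obtain ⟨hbij, w, hw, hwu, hg⟩ := of_intertwiner hicc v hv hv1 hvd f χ ζ hζ hvz
      refine ⟨MulEquiv.ofBijective f hbij, (Submonoid.subtype _).comp χ, (cj ε).symm w, ?_,
        ⟨?_, ?_, ?_⟩, ?_⟩
      · intro g
        exact CStarRing.norm_of_mem_unitary (χ g).2
      · refine (inL_iff ε _).2 ?_
        rw [StarAlgEquiv.apply_symm_apply]; exact hw
      · rw [← map_star, ← map_mul, (Unitary.mem_iff.1 hwu).1, map_one]
      · rw [← map_star, ← map_mul, (Unitary.mem_iff.1 hwu).2, map_one]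
      · intro g T V hT hV
        have h1 : T = U g := by
          rw [← StarAlgEquiv.symm_apply_apply (cj δ) T, (isU_iff δ g T).1 hT,
            ← (isU_iff δ g (U g)).1 (hU g), StarAlgEquiv.symm_apply_apply]
        apply (cj ε).injective
        change cj ε (θ T) = cj ε (((χ g : unitary ℂ) : ℂ) • ((cj ε).symm w * V *
          star ((cj ε).symm w)))
        rw [h1, ← hvθ, hg, map_smul, map_mul, map_mul, cj_star, StarAlgEquiv.apply_symm_apply,
          (isU_iff ε _ V).1 hV]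
        rfl
    · rw [← four_cj, ← hvθ]
      exact hcv g
  · right
    have hdec' : ∀ (n : ℕ) (g : Γ), (walk S μ)^[n] (fun x => four ε (θ (U x))) g ≤ ρ ^ n := by
      rw [hF]
      exact hdec
    refine ⟨fun hgt => ?_, hdec'⟩
    obtain ⟨c, hc, hcF⟩ := lower_of_groupType δ ε U θ hU v hvθ hv hgt
    obtain ⟨n, hn⟩ := exists_pow_lt_of_lt_one hc hρ1
    have h1 := hdec' n 1
    have h2 : c ≤ (walk S μ)^[n] (fun x => four ε (θ (U x))) 1 :=
      Mk_iter_ge S μ hμ.1 hμ.2 (fun x => four ε (θ (U x))) c hcF n 1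
    linarith

/-- **The spectral gap.** -/
theorem exists_gap (hT : PropertyT Γ) (S : Finset Γ) (μ : Γ → ℝ)
    (hμ : IsProb S μ) (h1 : 1 ∈ S) (hgen : Subgroup.closure (S : Set Γ) = ⊤) :
    ∃ ρ : ℝ, 0 ≤ ρ ∧ ρ < 1 ∧ IsGap S μ ρ := by
  obtain ⟨ρ, h0, h2, h3⟩ := Pool.Agent.H52.HD.gap Γ (hasT hT) S μ h1 hgen hμ.1 hμ.2
  exact ⟨ρ, h0, h2, of_gap S μ h3⟩

end

/-- **Height dichotomy.**  Let `Γ` be an icc group with property (T) and `μ` a probability measure
on `Γ` whose support is finite, contains `1` and generates `Γ`.  Then `μ` has spectral gap constants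
`ρ < 1`, and for every such `ρ`, every group `Λ` and every trace preserving `*`-isomorphism
`θ : L(Γ) → L(Λ)` either `θ` is of group type and `F(g) = ∑_h |c_h(g)|⁴` is bounded from below by a
positive constant, or `θ` is not of group type and the mean of `F` after `n` steps of the random
walk from any `g ∈ Γ` is at most `ρ ^ n`.  (`U g` is the canonical unitary `u_g`, and
`F(g) = four ε (θ (U g))`.) -/
theorem result (Γ : Type) [Group Γ] (hicc : IsIcc Γ) (hT : PropertyT Γ) (S : Finset Γ)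
    (μ : Γ → ℝ) (hμ : IsProb S μ) (h1 : 1 ∈ S) (hgen : Subgroup.closure (S : Set Γ) = ⊤) :
    (∃ ρ : ℝ, 0 ≤ ρ ∧ ρ < 1 ∧ IsGap S μ ρ) ∧
    ∀ ρ : ℝ, 0 ≤ ρ → ρ < 1 → IsGap S μ ρ →
      ∀ (Λ H K : Type) [Group Λ] [NormedAddCommGroup H]
        [InnerProductSpace ℂ H] [CompleteSpace H] [NormedAddCommGroup K] [InnerProductSpace ℂ K]
        [CompleteSpace K] (δ : HilbertBasis Γ ℂ H) (ε : HilbertBasis Λ ℂ K) (U : Γ → Op H)
        (θ : Op H → Op K), (∀ g, IsU δ g (U g)) → IsTraceIso δ ε θ →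
        (IsOfGroupType δ ε θ ∧ ∃ c : ℝ, 0 < c ∧ ∀ g, c ≤ four ε (θ (U g))) ∨
        (¬ IsOfGroupType δ ε θ ∧
          ∀ (n : ℕ) (g : Γ), (walk S μ)^[n] (fun x => four ε (θ (U x))) g ≤ ρ ^ n) := by
  refine ⟨exists_gap hT S μ hμ h1 hgen, ?_⟩
  intro ρ h0 hρ1 hgap Λ H K _ _ _ _ _ _ _ δ ε U θ hU hθ
  exact main hicc S μ hμ h0 hρ1 hgap δ ε U θ hU hθ

end Pool.Agent.Results.MP_0f6f3f_an.HeightDichotomy
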