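import Pool.Agent.H52.TF.Erg
import Pool.Graph.R_pool_sql_team_seeded_63374d34.Results.MP_0f6f3f_an.LocalRigidity

/-!
# Finite index subgroups of `PSL_n(ℤ)`: one transvection decides

Let `n ≥ 3`, let `Γ` be a subgroup of finite index of `SL_n(ℤ)` and let `G` be the quotient of `Γ`
by its center; these groups `G` are exactly the subgroups of finite index of `PSL_n(ℤ)`.  Let
`a ∈ Γ` be a transvection (`a ≠ 1`, `a = 1 + w ⊗ φ` with `φ(w) = 0`; for example a power of an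
elementary matrix).  Let `Λ` be any group and `θ : L(G) → L(Λ)` a trace preserving `*`-isomorphism.
Write `θ(u_g) = ∑_h c_h(g) u_h`, so that `∑_h |c_h(g)|² = 1`, and let `F(g) = ∑_h |c_h(g)|⁴`; note
that `max_h |c_h(g)|⁴ ≤ F(g) ≤ max_h |c_h(g)|²`, so that `F(g)` measures the height
`max_h |c_h(g)|` of `θ(u_g)`.  Then there are exactly two possibilities.

* `θ` is of group type, `θ(u_g) = χ(g) w u_{φ(g)} w*` for an isomorphism of groups `φ : G → Λ`, a
  character `χ` and a unitary `w ∈ L(Λ)`; in this case `F` is bounded from below by a positive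
  constant on all of `G`.
* `θ` is not of group type and `F` tends to zero in mean along the powers of `a`: the average of
  `F(g a^i)` over `0 ≤ i < k` tends to zero for `k → ∞`, uniformly in `g ∈ G`.

So the restriction of `θ` to the powers of a single transvection decides whether `θ` comes from an
isomorphism of the groups.  For example, `θ` is of group type as soon as it maps `u_a`, for one
transvection `a`, to an element of the form `c w u_h w*` with `|c| = 1`, `h ∈ Λ` and a unitary `w`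
of `L(Λ)`; this is the second part of the theorem.

As usual `ℓ²(G)` is a Hilbert space `H` with an orthonormal basis `(δ_g)` indexed by `G`, and
`L(G)` is the commutant of the right translations, i.e. the algebra of the bounded operators `T`
for which `⟨δ_{tg}, T δ_{sg}⟩ = ⟨δ_t, T δ_s⟩`.
-/

set_option autoImplicit false

namespace Pool.Agent.Results.MP_0f6f3f_an.OneTransvection

open Matrix (SpecialLinearGroup)

/-! ### Definitions -/

/-- the integral matrix `a` is a (nontrivial) transvection: `a = 1 + w ⊗ φ` for a vector `w ≠ 0`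
and a linear form `φ ≠ 0` with `φ(w) = 0` -/
def IsTransvection {n : ℕ} (a : Matrix (Fin n) (Fin n) ℤ) : Prop :=
  ∃ w φ : Fin n → ℤ, w ≠ 0 ∧ φ ≠ 0 ∧ dotProduct φ w = 0 ∧ a = 1 + Matrix.vecMulVec w φ

/-- the bounded operators of a Hilbert space -/
abbrev Op (H : Type) [NormedAddCommGroup H] [InnerProductSpace ℂ H] : Type := H →L[ℂ] H

section
variable {G H : Type} [Group G] [NormedAddCommGroup H] [InnerProductSpace ℂ H]

/-- `T` belongs to the group von Neumann algebra `L(G)`: it commutes with the right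
translations. -/
def InL (δ : HilbertBasis G ℂ H) (T : Op H) : Prop :=
  ∀ g s t : G, inner ℂ (δ (t * g)) (T (δ (s * g))) = inner ℂ (δ t) (T (δ s))

/-- the Fourier coefficient of `T` at `g`; at `g = 1` this is the trace of `T ∈ L(G)` -/
noncomputable def coef (δ : HilbertBasis G ℂ H) (T : Op H) (g : G) : ℂ :=
  inner ℂ (δ g) (T (δ 1))

/-- `T` is the canonical unitary `u_g`, the left translation by `g` -/
def IsU (δ : HilbertBasis G ℂ H) (g : G) (T : Op H) : Prop := ∀ s, T (δ s) = δ (g * s)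

/-- the sum of the fourth powers of the absolute values of the Fourier coefficients -/
noncomputable def four (δ : HilbertBasis G ℂ H) (T : Op H) : ℝ := ∑' g, ‖coef δ T g‖ ^ 4

end

section
variable {G G' H K : Type} [Group G] [Group G'] [NormedAddCommGroup H] [InnerProductSpace ℂ H]
  [CompleteSpace H] [NormedAddCommGroup K] [InnerProductSpace ℂ K] [CompleteSpace K]
  (δ : HilbertBasis G ℂ H) (ε : HilbertBasis G' ℂ K) (θ : Op H → Op K)

/-- `θ` maps `L(G)` bijectively onto `L(G')` (values outside `L(G)` are irrelevant) -/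
def Bij : Prop :=
  (∀ T, InL δ T → InL ε (θ T)) ∧ (∀ T, InL ε T → ∃ S, InL δ S ∧ θ S = T) ∧
    ∀ T S, InL δ T → InL δ S → θ T = θ S → T = S

omit [Group G'] [CompleteSpace H] [CompleteSpace K] in
/-- `θ` is additive on `L(G)` -/
def Add : Prop := ∀ T S, InL δ T → InL δ S → θ (T + S) = θ T + θ S

omit [Group G'] [CompleteSpace H] [CompleteSpace K] in
/-- `θ` is homogeneous on `L(G)` -/
def Hom : Prop := ∀ (c : ℂ) (T : Op H), InL δ T → θ (c • T) = c • θ T

omit [Group G'] [CompleteSpace H] [CompleteSpace K] in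
/-- `θ` is multiplicative on `L(G)` -/
def Mul : Prop := ∀ T S, InL δ T → InL δ S → θ (T * S) = θ T * θ S

omit [Group G'] in
/-- `θ` preserves adjoints on `L(G)` -/
def Sta : Prop := ∀ T, InL δ T → θ (star T) = star (θ T)

/-- `θ` is a `*`-isomorphism of `L(G)` onto `L(G')` which preserves the trace -/
def IsTraceIso : Prop :=
  Bij δ ε θ ∧ Add δ θ ∧ Hom δ θ ∧ Mul δ θ ∧ Sta δ θ ∧
    ∀ T, InL δ T → coef ε (θ T) 1 = coef δ T 1

/-- `w` is a unitary of `L(G')` -/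
def IsUnitary (w : Op K) : Prop := InL ε w ∧ star w * w = 1 ∧ w * star w = 1

/-- `θ` maps `u_a` to `c w u_h w*` for some `h ∈ G'`, a complex number `c` of absolute value one
and a unitary `w` of `L(G')` -/
def MapsToGroup (a : G) : Prop :=
  ∃ (h : G') (c : ℂ) (w : Op K), ‖c‖ = 1 ∧ IsUnitary ε w ∧
    ∀ T U, IsU δ a T → IsU ε h U → θ T = c • (w * U * star w)

/-- `θ(u_g) = χ(g) w u_{φ(g)} w*` for a group isomorphism `φ`, a character `χ` and a unitary `w`
of `L(G')` -/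
def IsOfGroupType : Prop :=
  ∃ (φ : G ≃* G') (χ : G →* ℂ) (w : Op K), (∀ g, ‖χ g‖ = 1) ∧ IsUnitary ε w ∧
    ∀ g T U, IsU δ g T → IsU ε (φ g) U → θ T = χ g • (w * U * star w)

end

/-! ### Proof -/

section
open Pool.Agent.H494R3.GT Pool.Agent.N557.QW
open Pool.Agent.Results.MP_0f6f3f_an.LocalRigidity (cj cj_star cf_cj inL_iff isU_iff)
open Pool.Agent.H52.HD (total_of_dense of_intertwiner height_of_intertwiner four_ge)

theorem four_cj {G H : Type} [Group G] [NormedAddCommGroup H] [InnerProductSpace ℂ H]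
    [CompleteSpace H] (δ : HilbertBasis G ℂ H) (T : H →L[ℂ] H) :
    Pool.Agent.H52.HD.four (cj δ T) = four δ T := by
  rw [Pool.Agent.H52.HD.four, four]
  refine tsum_congr fun g => ?_
  rw [cf_cj]
  rfl

variable {Γ Λ H K : Type} [Group Γ] [Group Λ] [NormedAddCommGroup H]
      [InnerProductSpace ℂ H] [CompleteSpace H] [NormedAddCommGroup K] [InnerProductSpace ℂ K]
      [CompleteSpace K]

/-- the unitaries `θ(u_g)` -/
theorem exists_v (δ : HilbertBasis Γ ℂ H) (ε : HilbertBasis Λ ℂ K) (U : Γ → Op H)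
    (θ : Op H → Op K) (hU : ∀ g, IsU δ g (U g)) (hiso : IsTraceIso δ ε θ) :
    ∃ v : Γ →* unitary (Pool.Agent.N414.LR.Op Λ),
      (∀ g, (v g : Pool.Agent.N414.LR.Op Λ) = cj ε (θ (U g))) ∧
      (∀ g, (v g : Pool.Agent.N414.LR.Op Λ) ∈ LG Λ) ∧
      (∀ g, g ≠ 1 → cf (v g : Pool.Agent.N414.LR.Op Λ) 1 = 0) ∧
      (Submodule.span ℂ
        (Set.range fun g => (v g : Pool.Agent.N414.LR.Op Λ) (dl 1))).topologicalClosure = ⊤ := by
  obtain ⟨⟨hmaps, honto, hinj⟩, hadd, hhom, hmul, hsta, htr⟩ := hiso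
  have hin : ∀ x : (LG Γ).toStarSubalgebra, InL δ ((cj δ).symm x) := fun x => by
    refine (inL_iff δ _).2 ?_
    rw [StarAlgEquiv.apply_symm_apply]; exact x.2
  let f : (LG Γ).toStarSubalgebra → (LG Λ).toStarSubalgebra := fun x =>
    ⟨cj ε (θ ((cj δ).symm x)), (inL_iff ε _).1 (hmaps _ (hin x))⟩
  have hbij : Function.Bijective f := by
    constructor
    · intro x y hxy
      have h1 := congrArg Subtype.val hxy
      have h2 := hinj _ _ (hin x) (hin y) ((cj ε).injective h1)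
      exact Subtype.ext ((cj δ).symm.injective h2)
    · intro y
      obtain ⟨T, hT, hTy⟩ := honto ((cj ε).symm y)
        ((inL_iff ε _).2 (by rw [StarAlgEquiv.apply_symm_apply]; exact y.2))
      refine ⟨⟨cj δ T, (inL_iff δ T).1 hT⟩, Subtype.ext ?_⟩
      change cj ε (θ ((cj δ).symm (cj δ T))) = y
      rw [StarAlgEquiv.symm_apply_apply, hTy, StarAlgEquiv.apply_symm_apply]
  let e : (LG Γ).toStarSubalgebra ≃⋆ₐ[ℂ] (LG Λ).toStarSubalgebra :=
    { Equiv.ofBijective f hbij with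
      map_mul' := fun x y => Subtype.ext (by
        change cj ε (θ ((cj δ).symm ((x : Pool.Agent.N414.LR.Op Γ) * y))) = _
        rw [map_mul, hmul _ _ (hin x) (hin y), map_mul]; rfl)
      map_add' := fun x y => Subtype.ext (by
        change cj ε (θ ((cj δ).symm ((x : Pool.Agent.N414.LR.Op Γ) + y))) = _
        rw [map_add, hadd _ _ (hin x) (hin y), map_add]; rfl)
      map_smul' := fun c x => Subtype.ext (by
        change cj ε (θ ((cj δ).symm (c • (x : Pool.Agent.N414.LR.Op Γ)))) = _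
        rw [map_smul, hhom c _ (hin x), map_smul]; rfl)
      map_star' := fun x => Subtype.ext (by
        change cj ε (θ ((cj δ).symm (star (x : Pool.Agent.N414.LR.Op Γ)))) = _
        rw [map_star, hsta _ (hin x), cj_star]; rfl) }
  have he : ∀ x, (e x : L2 Λ →L[ℂ] L2 Λ) = cj ε (θ ((cj δ).symm x)) := fun _ => rfl
  obtain ⟨v, h1, h2, h3, h4⟩ := Pool.Agent.N414.LR.END.t_den Γ Λ e (fun x => by
      rw [he, cf_cj]
      have h5 := htr _ (hin x)
      have h6 : coef δ ((cj δ).symm x) 1 = cf (x : Pool.Agent.N414.LR.Op Γ) 1 := by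
        have := cf_cj δ ((cj δ).symm (x : Pool.Agent.N414.LR.Op Γ)) 1
        rw [StarAlgEquiv.apply_symm_apply] at this
        exact this.symm
      exact h5.trans h6)
  refine ⟨v, fun g => ?_, h2, h3, h4⟩
  rw [h1, he]
  congr 2
  have h7 : U g = (cj δ).symm (lam g) := by
    rw [← (isU_iff δ g (U g)).1 (hU g), StarAlgEquiv.symm_apply_apply]
  exact h7.symm

omit [CompleteSpace H] in
/-- group type isomorphisms have heights bounded from below -/
theorem lower_of_groupType (δ : HilbertBasis Γ ℂ H) (ε : HilbertBasis Λ ℂ K) (U : Γ → Op H)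
    (θ : Op H → Op K) (hU : ∀ g, IsU δ g (U g)) (v : Γ →* unitary (Pool.Agent.N414.LR.Op Λ))
    (hvθ : ∀ g, (v g : Pool.Agent.N414.LR.Op Λ) = cj ε (θ (U g)))
    (hv : ∀ g, (v g : Pool.Agent.N414.LR.Op Λ) ∈ LG Λ) (h : IsOfGroupType δ ε θ) :
    ∃ c : ℝ, 0 < c ∧ ∀ g, c ≤ four ε (θ (U g)) := by
  obtain ⟨φ, χ, w, hχ, ⟨hw, hw1, hw2⟩, hg⟩ := h
  have hwL : cj ε w ∈ LG Λ := (inL_iff ε w).1 hw
  have hw1' : star (cj ε w) * cj ε w = 1 := by
    rw [← cj_star, ← map_mul, hw1, map_one]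
  have hw2' : cj ε w * star (cj ε w) = 1 := by
    rw [← cj_star, ← map_mul, hw2, map_one]
  have hwn : ‖(cj ε w) (dl 1)‖ = 1 := by
    have hu : cj ε w ∈ unitary (Pool.Agent.N414.LR.Op Λ) := Unitary.mem_iff.2 ⟨hw1', hw2'⟩
    rw [ContinuousLinearMap.norm_map_of_mem_unitary hu, Pool.Agent.N414.LR.SQ.norm_dl]
  obtain ⟨c, hc, hcv⟩ := height_of_intertwiner v hv (fun g => φ g) (fun g => χ g)
    ((cj ε w) (dl 1)) hwn hχ (fun g => by
      rw [hvθ, hg g (U g) ((cj ε).symm (lam (φ g))) (hU g)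
        ((isU_iff ε _ _).2 (by rw [StarAlgEquiv.apply_symm_apply])), map_smul, map_mul, map_mul,
        cj_star, StarAlgEquiv.apply_symm_apply]
      have h1 : (χ g • (cj ε w * lam (φ g) * star (cj ε w))) (cj ε w (dl 1)) =
          χ g • (cj ε w (lam (φ g) ((star (cj ε w) * cj ε w) (dl 1)))) := rfl
      rw [h1, hw1']
      congr 1
      show cj ε w (lam (φ g) (dl 1)) = rgt (φ g) (cj ε w (dl 1))
      have h2 := congrArg (fun z : L2 Λ →L[ℂ] L2 Λ => z (dl 1)) (mem_LG.1 hwL (φ g))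
      simp only [mul_ap] at h2
      rw [h2, rgt_dl, lam_dl, one_mul, mul_one])
  refine ⟨c, hc, fun g => ?_⟩
  rw [← four_cj, ← hvθ]
  exact hcv g


/-- heights bounded from below give group type -/
theorem groupType_of_lower (hicc : Pool.Agent.N414.LR.IsIcc Γ) (δ : HilbertBasis Γ ℂ H)
    (ε : HilbertBasis Λ ℂ K) (U : Γ → Op H) (θ : Op H → Op K) (hU : ∀ g, IsU δ g (U g))
    (v : Γ →* unitary (Pool.Agent.N414.LR.Op Λ))
    (hvθ : ∀ g, (v g : Pool.Agent.N414.LR.Op Λ) = cj ε (θ (U g)))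
    (hv : ∀ g, (v g : Pool.Agent.N414.LR.Op Λ) ∈ LG Λ)
    (hv1 : ∀ g, g ≠ 1 → cf (v g : Pool.Agent.N414.LR.Op Λ) 1 = 0)
    (hvd : (Submodule.span ℂ
        (Set.range fun g => (v g : Pool.Agent.N414.LR.Op Λ) (dl 1))).topologicalClosure = ⊤)
    {c : ℝ} (hc : 0 < c) (hh : ∀ g, ∃ x, c ≤ ‖cf (v g : Pool.Agent.N414.LR.Op Λ) x‖) :
    IsOfGroupType δ ε θ ∧ ∃ c : ℝ, 0 < c ∧ ∀ g, c ≤ four ε (θ (U g)) := by
  obtain ⟨f, χ, ζ, hζ, hvz⟩ :=
    Pool.Agent.H52.TF.of_lower hicc v hv hv1 (total_of_dense v hvd) hc hh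
  refine ⟨?_, c ^ 4, by positivity, fun g => ?_⟩
  · obtain ⟨hbij, w, hw, hwu, hg⟩ := of_intertwiner hicc v hv hv1 hvd f χ ζ hζ hvz
    refine ⟨MulEquiv.ofBijective f hbij, (Submonoid.subtype _).comp χ, (cj ε).symm w, ?_,
      ⟨?_, ?_, ?_⟩, ?_⟩
    · intro g
      exact CStarRing.norm_of_mem_unitary (χ g).2
    · refine (inL_iff ε _).2 ?_
      rw [StarAlgEquiv.apply_symm_apply]; exact hw
    · rw [← map_star, ← map_mul, (Unitary.mem_iff.1 hwu).1, map_one]
    · rw [← map_star, ← map_mul, (Unitary.mem_iff.1 hwu).2, map_one]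
    · intro g T V hT hV
      have h1 : T = U g := by
        rw [← StarAlgEquiv.symm_apply_apply (cj δ) T, (isU_iff δ g T).1 hT,
          ← (isU_iff δ g (U g)).1 (hU g), StarAlgEquiv.symm_apply_apply]
      apply (cj ε).injective
      change cj ε (θ T) = cj ε (((χ g : unitary ℂ) : ℂ) • ((cj ε).symm w * V *
        star ((cj ε).symm w)))
      rw [h1, ← hvθ, hg, map_smul, map_mul, map_mul, cj_star, StarAlgEquiv.apply_symm_apply,
        (isU_iff ε _ V).1 hV]
      rfl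
  · rw [← four_cj, ← hvθ]
    obtain ⟨x, hx⟩ := hh g
    exact four_ge v hv g hc x hx

omit [CompleteSpace H] in
/-- group unitaries have heights bounded from below along the powers -/
theorem lower_of_mapsToGroup (δ : HilbertBasis Γ ℂ H) (ε : HilbertBasis Λ ℂ K) (U : Γ → Op H)
    (θ : Op H → Op K) (hU : ∀ g, IsU δ g (U g)) (v : Γ →* unitary (Pool.Agent.N414.LR.Op Λ))
    (hvθ : ∀ g, (v g : Pool.Agent.N414.LR.Op Λ) = cj ε (θ (U g)))
    (hv : ∀ g, (v g : Pool.Agent.N414.LR.Op Λ) ∈ LG Λ) (a : Γ) (h : MapsToGroup δ ε θ a) :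
    ∃ c : ℝ, 0 < c ∧ ∀ k : ℕ, c ≤ four ε (θ (U (a ^ k))) := by
  obtain ⟨x, c, w, hc, ⟨hw, hw1, hw2⟩, hg⟩ := h
  have hwL : cj ε w ∈ LG Λ := (inL_iff ε w).1 hw
  have hw1' : star (cj ε w) * cj ε w = 1 := by
    rw [← cj_star, ← map_mul, hw1, map_one]
  have hw2' : cj ε w * star (cj ε w) = 1 := by
    rw [← cj_star, ← map_mul, hw2, map_one]
  have hwn : ‖(cj ε w) (dl 1)‖ = 1 := by
    have hu : cj ε w ∈ unitary (Pool.Agent.N414.LR.Op Λ) := Unitary.mem_iff.2 ⟨hw1', hw2'⟩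
    rw [ContinuousLinearMap.norm_map_of_mem_unitary hu, Pool.Agent.N414.LR.SQ.norm_dl]
  set ζ : L2 Λ := (cj ε w) (dl 1) with hζ
  have ha : (v a : Pool.Agent.N414.LR.Op Λ) ζ = c • rgt x ζ := by
    rw [hvθ, hg (U a) ((cj ε).symm (lam x)) (hU a)
      ((isU_iff ε _ _).2 (by rw [StarAlgEquiv.apply_symm_apply])), map_smul, map_mul, map_mul,
      cj_star, StarAlgEquiv.apply_symm_apply]
    have h1 : (c • (cj ε w * lam x * star (cj ε w))) (cj ε w (dl 1)) =
        c • (cj ε w (lam x ((star (cj ε w) * cj ε w) (dl 1)))) := rfl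
    rw [hζ, h1, hw1']
    congr 1
    show cj ε w (lam x (dl 1)) = rgt x (cj ε w (dl 1))
    have h2 := congrArg (fun z : L2 Λ →L[ℂ] L2 Λ => z (dl 1)) (mem_LG.1 hwL x)
    simp only [mul_ap] at h2
    rw [h2, rgt_dl, lam_dl, one_mul, mul_one]
  -- the elements which act on `ζ` like this form a subgroup
  have hmul : ∀ g g' : Γ, (∃ (y : Λ) (d : ℂ), ‖d‖ = 1 ∧
      (v g : Pool.Agent.N414.LR.Op Λ) ζ = d • rgt y ζ) → (∃ (y : Λ) (d : ℂ), ‖d‖ = 1 ∧
      (v g' : Pool.Agent.N414.LR.Op Λ) ζ = d • rgt y ζ) → ∃ (y : Λ) (d : ℂ), ‖d‖ = 1 ∧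
      (v (g * g') : Pool.Agent.N414.LR.Op Λ) ζ = d • rgt y ζ := by
    rintro g g' ⟨y, d, hd, e⟩ ⟨y', d', hd', e'⟩
    refine ⟨y * y', d' * d, by rw [norm_mul, hd, hd', mul_one], ?_⟩
    rw [Pool.Agent.N414.LR.CLS.v_mul, e', map_smul, Pool.Agent.H52.HD.v_rgt v hv, e, map_smul,
      Pool.Agent.H52.HD.rgt_rgt, smul_smul]
  let S : Subgroup Γ :=
    { carrier := {g | ∃ (y : Λ) (d : ℂ), ‖d‖ = 1 ∧
        (v g : Pool.Agent.N414.LR.Op Λ) ζ = d • rgt y ζ}
      one_mem' := by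
        refine ⟨1, 1, norm_one, ?_⟩
        rw [map_one, one_smul, Pool.Agent.H52.HD.rgt_one']
        rfl
      mul_mem' := fun {x y} hx hy => hmul x y hx hy
      inv_mem' := by
        rintro g ⟨y, d, hd, e⟩
        have hd0 : d ≠ 0 := by
          intro h0
          rw [h0, norm_zero] at hd
          exact zero_ne_one hd
        refine ⟨y⁻¹, d⁻¹, by rw [norm_inv, hd, inv_one], ?_⟩
        have h1 : (v g⁻¹ : Pool.Agent.N414.LR.Op Λ) ((v g : Pool.Agent.N414.LR.Op Λ) ζ) = ζ := by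
          rw [← Pool.Agent.N414.LR.CLS.v_mul, inv_mul_cancel, map_one]
          rfl
        rw [e, map_smul, Pool.Agent.H52.HD.v_rgt v hv] at h1
        have h2 : rgt y⁻¹ ζ = d • (v g⁻¹ : Pool.Agent.N414.LR.Op Λ) ζ := by
          conv_lhs => rw [← h1]
          rw [map_smul, Pool.Agent.H52.HD.rgt_rgt, mul_inv_cancel,
            Pool.Agent.H52.HD.rgt_one']
        rw [h2, smul_smul, inv_mul_cancel₀ hd0, one_smul] }
  have haS : a ∈ S := ⟨x, c, hc, ha⟩
  have key : ∀ g : Subgroup.zpowers a, ∃ (y : Λ) (d : ℂ), ‖d‖ = 1 ∧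
      ((v.comp (Subgroup.zpowers a).subtype) g : Pool.Agent.N414.LR.Op Λ) ζ = d • rgt y ζ :=
    fun g => (Subgroup.zpowers_le.2 haS) g.2
  choose y d hd hyd using key
  obtain ⟨c', hc', hcv⟩ := height_of_intertwiner (v.comp (Subgroup.zpowers a).subtype)
    (fun g => hv _) y d ζ hwn hd hyd
  refine ⟨c', hc', fun k => ?_⟩
  rw [← four_cj, ← hvθ]
  exact hcv ⟨a ^ k, k, by
    show a ^ (k : ℤ) = a ^ k
    rw [zpow_natCast]⟩

/-- the dichotomy -/
theorem main {n : ℕ} (hn : 3 ≤ n) (Δ : Subgroup (SpecialLinearGroup (Fin n) ℤ))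
    (hΔ : Δ.index ≠ 0) (π : Δ →* Γ) (hsurj : Function.Surjective π)
    (hker : ∀ x : Δ, π x = 1 ↔ x ∈ Subgroup.center Δ) (a : Δ)
    (ha : IsTransvection ((a : SpecialLinearGroup (Fin n) ℤ) : Matrix (Fin n) (Fin n) ℤ))
    (δ : HilbertBasis Γ ℂ H) (ε : HilbertBasis Λ ℂ K) (U : Γ → Op H) (θ : Op H → Op K)
    (hU : ∀ g, IsU δ g (U g)) (hθ : IsTraceIso δ ε θ) :
    ((IsOfGroupType δ ε θ ∧ ∃ c : ℝ, 0 < c ∧ ∀ g, c ≤ four ε (θ (U g))) ∨
      (¬ IsOfGroupType δ ε θ ∧ ∀ r : ℝ, 0 < r → ∃ N : ℕ, ∀ k : ℕ, N ≤ k → ∀ g : Γ,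
        ∑ i ∈ Finset.range k, four ε (θ (U (g * (π a) ^ i))) ≤ r * k)) ∧
    (MapsToGroup δ ε θ (π a) → IsOfGroupType δ ε θ) := by
  obtain ⟨v, hvθ, hv, hv1, hvd⟩ := exists_v δ ε U θ hU hθ
  obtain ⟨m, hm, hΔm⟩ := Pool.Agent.H52.TF.exists_pow_mem hΔ
  have hk1 : ∀ x : Δ, π x = 1 →
      ((x : SpecialLinearGroup (Fin n) ℤ) : Matrix (Fin n) (Fin n) ℤ) = 1 ∨
      ((x : SpecialLinearGroup (Fin n) ℤ) : Matrix (Fin n) (Fin n) ℤ) = -1 := fun x hx =>
    Pool.Agent.H52.TF.center_scalar hn hm hΔm x ((hker x).1 hx)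
  have hk2 : ∀ x : Δ, ((x : SpecialLinearGroup (Fin n) ℤ) : Matrix (Fin n) (Fin n) ℤ) = 1 ∨
      ((x : SpecialLinearGroup (Fin n) ℤ) : Matrix (Fin n) (Fin n) ℤ) = -1 → π x = 1 :=
    fun x hx => (hker x).2 (Pool.Agent.H52.TF.scalar_center x hx)
  have hicc : Pool.Agent.N414.LR.IsIcc Γ :=
    Pool.Agent.H52.TF.icc_G hn π hsurj hk1 hk2 hm hΔm
  have hF : ∀ x, four ε (θ (U x)) = Pool.Agent.H52.HD.four
      (v x : Pool.Agent.N414.LR.Op Λ) := fun x => by
    rw [hvθ, four_cj]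
  have hdich : ((IsOfGroupType δ ε θ ∧ ∃ c : ℝ, 0 < c ∧ ∀ g, c ≤ four ε (θ (U g))) ∨
      (¬ IsOfGroupType δ ε θ ∧ ∀ r : ℝ, 0 < r → ∃ N : ℕ, ∀ k : ℕ, N ≤ k → ∀ g : Γ,
        ∑ i ∈ Finset.range k, four ε (θ (U (g * (π a) ^ i))) ≤ r * k)) := by
    rcases Pool.Agent.H52.TF.powers v hv (π a) with ⟨c, hc, hh⟩ | hdec
    · left
      obtain ⟨w, φ, hw, hφ, hφw, haw⟩ := ha
      have hmem : Pool.Agent.H52.TF.T w φ hφw = (a : SpecialLinearGroup (Fin n) ℤ) := by
        apply Pool.Agent.H52.TF.slext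
        rw [Pool.Agent.H52.TF.T_coe, haw]
      have haΔ : Pool.Agent.H52.TF.T w φ hφw ∈ Δ := hmem ▸ a.2
      have hae : (⟨Pool.Agent.H52.TF.T w φ hφw, haΔ⟩ : Δ) = a := Subtype.ext hmem
      obtain ⟨c', hc', hh'⟩ := Pool.Agent.H52.TF.lower_of_transvection hn π hsurj hk1 hk2 hm hΔm
        v hv hv1 (total_of_dense v hvd) w φ hφw hw hφ haΔ hc (by rw [hae]; exact hh)
      exact groupType_of_lower hicc δ ε U θ hU v hvθ hv hv1 hvd hc' hh'
    · right
      have hdec' : ∀ r : ℝ, 0 < r → ∃ N : ℕ, ∀ k : ℕ, N ≤ k → ∀ g : Γ,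
          ∑ i ∈ Finset.range k, four ε (θ (U (g * (π a) ^ i))) ≤ r * k := by
        intro r hr
        obtain ⟨N, hN⟩ := hdec r hr
        refine ⟨N, fun k hk g => ?_⟩
        simp only [hF]
        exact hN k hk g
      refine ⟨fun hgt => ?_, hdec'⟩
      obtain ⟨c, hc, hcF⟩ := lower_of_groupType δ ε U θ hU v hvθ hv hgt
      obtain ⟨N, hN⟩ := hdec' (c / 2) (by positivity)
      have h1 := hN (N + 1) (by omega) 1
      have h2 : ((N + 1 : ℕ) : ℝ) * c ≤
          ∑ i ∈ Finset.range (N + 1), four ε (θ (U (1 * (π a) ^ i))) := by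
        have := Finset.card_nsmul_le_sum (Finset.range (N + 1))
          (fun i => four ε (θ (U (1 * (π a) ^ i)))) c (fun i _ => hcF _)
        rwa [Finset.card_range, nsmul_eq_mul] at this
      have h3 : (0 : ℝ) < ((N + 1 : ℕ) : ℝ) := by exact_mod_cast Nat.succ_pos N
      nlinarith
  refine ⟨hdich, fun hmap => ?_⟩
  rcases hdich with h | ⟨-, hdec⟩
  · exact h.1
  · exfalso
    obtain ⟨c, hc, hcF⟩ := lower_of_mapsToGroup δ ε U θ hU v hvθ hv (π a) hmap
    obtain ⟨N, hN⟩ := hdec (c / 2) (by positivity)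
    have h1 := hN (N + 1) (by omega) 1
    have h2 : ((N + 1 : ℕ) : ℝ) * c ≤
        ∑ i ∈ Finset.range (N + 1), four ε (θ (U (1 * (π a) ^ i))) := by
      have := Finset.card_nsmul_le_sum (Finset.range (N + 1))
        (fun i => four ε (θ (U (1 * (π a) ^ i)))) c (fun i _ => by rw [one_mul]; exact hcF i)
      rwa [Finset.card_range, nsmul_eq_mul] at this
    have h3 : (0 : ℝ) < ((N + 1 : ℕ) : ℝ) := by exact_mod_cast Nat.succ_pos N
    nlinarith

end

/-- **One transvection decides.**  Let `n ≥ 3`, let `Γ` be a subgroup of finite index of `SL_n(ℤ)`,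
`G` the quotient of `Γ` by its center and `a ∈ Γ` a transvection.  Let `θ : L(G) → L(Λ)` be a trace
preserving `*`-isomorphism and `F(g) = ∑_h |c_h(g)|⁴ = four ε (θ (U g))`, where `U g` is the
canonical unitary `u_g`.  Either `θ` is of group type and `F` is bounded from below by a positive
constant, or `θ` is not of group type and the average of `F(g a^i)` over `0 ≤ i < k` tends to zero
for `k → ∞`, uniformly in `g ∈ G`.  If `θ` maps `u_a` to a multiple of a conjugate of a group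
unitary then `θ` is of group type. -/
theorem result (n : ℕ) (hn : 3 ≤ n) (Γ : Subgroup (SpecialLinearGroup (Fin n) ℤ))
    (hΓ : Γ.index ≠ 0) (a : Γ)
    (ha : IsTransvection ((a : SpecialLinearGroup (Fin n) ℤ) : Matrix (Fin n) (Fin n) ℤ))
    (Λ H K : Type) [Group Λ] [NormedAddCommGroup H] [InnerProductSpace ℂ H] [CompleteSpace H]
    [NormedAddCommGroup K] [InnerProductSpace ℂ K] [CompleteSpace K]
    (δ : HilbertBasis (Γ ⧸ Subgroup.center Γ) ℂ H) (ε : HilbertBasis Λ ℂ K)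
    (U : Γ ⧸ Subgroup.center Γ → Op H) (θ : Op H → Op K) (hU : ∀ g, IsU δ g (U g))
    (hθ : IsTraceIso δ ε θ) :
    ((IsOfGroupType δ ε θ ∧ ∃ c : ℝ, 0 < c ∧ ∀ g, c ≤ four ε (θ (U g))) ∨
      (¬ IsOfGroupType δ ε θ ∧
        ∀ r : ℝ, 0 < r → ∃ N : ℕ, ∀ k : ℕ, N ≤ k → ∀ g : Γ ⧸ Subgroup.center Γ,
          ∑ i ∈ Finset.range k, four ε (θ (U (g * (a : Γ ⧸ Subgroup.center Γ) ^ i))) ≤ r * k)) ∧
    (MapsToGroup δ ε θ (a : Γ ⧸ Subgroup.center Γ) → IsOfGroupType δ ε θ) :=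
  main hn Γ hΓ (QuotientGroup.mk' (Subgroup.center Γ)) (QuotientGroup.mk'_surjective _)
    (fun x => QuotientGroup.eq_one_iff x) a ha δ ε U θ hU hθ

end Pool.Agent.Results.MP_0f6f3f_an.OneTransvection
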